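import Pool.Agent.Helper98.HQ.Spec

/-! HQ part RED1: the inputs. -/

set_option autoImplicit false

open MeasureTheory Filter Topology
open scoped ENNReal NNReal

namespace Pool.Agent.Helper89.HQ.RED1

open Pool.Agent.Helper98.HQ

theorem main : S_RED1 := by
  intro k μT μS h
  have := h.pT
  have := h.pS
  have e1 : ∫ u, u.1 ∂(μT.prod μS) = ∫ t, t ∂μT := by
    have := integral_fun_fst (μ := μT) (ν := μS) (fun t : ℝ => t)
    simpa using this
  have e2 : ∫ u, u.2 ∂(μT.prod μS) = ∫ s, s ∂μS := by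
    have := integral_fun_snd (μ := μT) (ν := μS) (fun t : ℝ => t)
    simpa using this
  have e3 : ∫ u, u.2 ^ 2 ∂(μT.prod μS) = ∫ s, s ^ 2 ∂μS := by
    have := integral_fun_snd (μ := μT) (ν := μS) (fun t : ℝ => t ^ 2)
    simpa using this
  refine ⟨⟨inferInstance, ?_, ?_, ?_, ?_, ?_, ?_⟩, e1, e2, e3⟩
  · have h1 : ∀ᵐ u ∂(μT.prod μS), 0 ≤ u.1 :=
      Measure.quasiMeasurePreserving_fst.ae h.T0
    have h2 : ∀ᵐ u ∂(μT.prod μS), 0 ≤ u.2 :=
      Measure.quasiMeasurePreserving_snd.ae h.S0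
    filter_upwards [h1, h2] with u a b using ⟨a, b⟩
  · exact h.T2.comp_fst μS
  · exact h.S2.comp_snd μT
  · rw [e1]; exact h.Tpos
  · rw [e2]; exact h.Spos
  · rw [e1, e2]; exact h.stab

end Pool.Agent.Helper89.HQ.RED1
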