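import Pool.Agent.Helper98.HQ.Spec

/-! HQ part RED2: the unperturbed chain. -/

set_option autoImplicit false

open MeasureTheory Filter Topology
open scoped ENNReal NNReal

namespace Pool.Agent.Helper89.HQ.RED2

open Pool.Agent.Helper98.HQ

theorem main (hK : S_KWM) : S_RED2 := by
  intro k μT μS π h hπ
  have := h.pT
  have := h.pS
  have := hπ.prob
  have hm : Measurable (fun x : (Fin k → ℝ) × ℝ × ℝ => kw x.1 x.2.2 x.2.1) := (hK.1 k).measurable
  refine ⟨hπ.prob, hπ.adm, fun f hf => ?_⟩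
  have h1 : ∀ᵐ u ∂(μT.prod μS), 0 ≤ u.1 := Measure.quasiMeasurePreserving_fst.ae h.T0
  have h2 : ∀ᵐ u ∂(μT.prod μS), 0 ≤ u.2 := Measure.quasiMeasurePreserving_snd.ae h.S0
  have key : ∫⁻ w, f w ∂π = ∫⁻ w, op (μT.prod μS) 1 f w ∂π := by
    calc ∫⁻ w, f w ∂π = ∫⁻ w, f w ∂((π.prod (μT.prod μS)).map
          (fun x : (Fin k → ℝ) × ℝ × ℝ => kw x.1 x.2.2 x.2.1)) := by rw [hπ.stat]
      _ = ∫⁻ x, f (kw x.1 x.2.2 x.2.1) ∂(π.prod (μT.prod μS)) := lintegral_map hf hm
      _ = ∫⁻ w, ∫⁻ u, f (kw w u.2 u.1) ∂(μT.prod μS) ∂π := by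
          exact lintegral_prod (fun x : (Fin k → ℝ) × ℝ × ℝ => f (kw x.1 x.2.2 x.2.1))
            (hf.comp hm).aemeasurable
      _ = ∫⁻ w, op (μT.prod μS) 1 f w ∂π := by
          refine lintegral_congr fun w => ?_
          refine lintegral_congr_ae ?_
          filter_upwards [h1, h2] with u a b
          simp only [stp, one_mul, max_eq_left a, max_eq_left b]
  rw [key]
  simp

end Pool.Agent.Helper89.HQ.RED2
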